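import Mathlib

set_option autoImplicit false

/-!
The form `η` of a 2-closed derivation in characteristic two: `d (x ^ 2) = (D x) ^ 2 • η` on the
kernel of `D`.
-/

namespace Pool.Agent.Helper77.FQ

variable {k A : Type*} [CommRing k] [CommRing A] [Algebra k A]

/-- The kernel of a derivation, a subalgebra. -/
def kerD (D : Derivation k A A) : Subalgebra k A where
  carrier := {x | D x = 0}
  mul_mem' := by
    intro x y hx hy
    simp only [Set.mem_setOf_eq] at *
    rw [Derivation.leibniz, hx, hy]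
    simp
  one_mem' := by simp
  add_mem' := by
    intro x y hx hy
    simp only [Set.mem_setOf_eq] at *
    rw [map_add, hx, hy, add_zero]
  zero_mem' := by simp
  algebraMap_mem' := by intro r; simp

theorem mem_kerD {D : Derivation k A A} {x : A} : x ∈ kerD D ↔ D x = 0 := Iff.rfl

/-- The square of an element, as an element of the kernel. -/
def sqD (h2 : (2 : A) = 0) (D : Derivation k A A) (x : A) : kerD D :=
  ⟨x ^ 2, by
    rw [mem_kerD, Derivation.leibniz_pow]
    simp only [Nat.cast_ofNat, nsmul_eq_mul, h2, zero_mul]⟩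

variable (h2 : (2 : A) = 0) (D : Derivation k A A)

theorem coe_sqD (x : A) : (sqD h2 D x : A) = x ^ 2 := rfl

include h2 in
theorem two_kerD : (2 : kerD D) = 0 := by
  apply Subtype.ext
  exact h2

theorem sqD_mul (x y : A) : sqD h2 D (x * y) = sqD h2 D x * sqD h2 D y := by
  apply Subtype.ext
  simp only [coe_sqD, Subalgebra.coe_mul, mul_pow]

theorem sqD_add (x y : A) : sqD h2 D (x + y) = sqD h2 D x + sqD h2 D y := by
  apply Subtype.ext
  simp only [coe_sqD, Subalgebra.coe_add]
  linear_combination (x * y) * h2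

theorem sqD_zero : sqD h2 D 0 = 0 := by
  apply Subtype.ext
  simp [coe_sqD]

theorem sqD_one : sqD h2 D 1 = 1 := by
  apply Subtype.ext
  simp [coe_sqD]

theorem sqD_sum {ι : Type*} (s : Finset ι) (f : ι → A) :
    sqD h2 D (∑ i ∈ s, f i) = ∑ i ∈ s, sqD h2 D (f i) := by
  classical
  induction s using Finset.induction_on with
  | empty => simp [sqD_zero]
  | insert a s ha ih => rw [Finset.sum_insert ha, Finset.sum_insert ha, sqD_add, ih]

variable {M : Type*} [AddCommGroup M] [Module (kerD D) M] [Module k M]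
variable (d : Derivation k (kerD D) M)

include h2 D in
theorem add_self_eq_zero' (m : M) : m + m = 0 := by
  have h : (2 : kerD D) • m = m + m := two_smul (kerD D) m
  rw [← h, two_kerD h2 D, zero_smul]

/-- Squares of elements of the kernel have derivative zero. -/
theorem d_sqD_of_mem {z : A} (hz : D z = 0) : d (sqD h2 D z) = 0 := by
  have h : sqD h2 D z = (⟨z, hz⟩ : kerD D) ^ 2 := by
    apply Subtype.ext
    simp [coe_sqD]
  rw [h, pow_two, Derivation.leibniz]
  exact add_self_eq_zero' h2 D _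

/-- The exchange rule for eigenvectors. -/
theorem swap_eigen {h : A} {z w : A} (hz : D z = h * z) (hw : D w = h * w) :
    sqD h2 D z • d (sqD h2 D w) = sqD h2 D w • d (sqD h2 D z) := by
  have hzw : D (z * w) = 0 := by
    rw [Derivation.leibniz, hz, hw, smul_eq_mul, smul_eq_mul]
    linear_combination (h * z * w) * h2
  have h0 := d_sqD_of_mem h2 D d hzw
  rw [sqD_mul, Derivation.leibniz] at h0
  have h1 := add_self_eq_zero' h2 D (sqD h2 D w • d (sqD h2 D z))
  have h3 : sqD h2 D z • d (sqD h2 D w) + sqD h2 D w • d (sqD h2 D z) =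
    sqD h2 D w • d (sqD h2 D z) + sqD h2 D w • d (sqD h2 D z) := by rw [h0, h1]
  exact add_right_cancel h3

/-- `(Dz)² ((Dx)² d(y²) + (Dy)² d(x²)) = 0`. -/
theorem key_mul {h : A} (hD : ∀ x, D (D x) = h * D x) (x y z : A) :
    sqD h2 D (D z) • (sqD h2 D (D x) • d (sqD h2 D y) + sqD h2 D (D y) • d (sqD h2 D x)) = 0 := by
  set m : A := x * D y + y * D x with hm
  have hDm : D m = h * m := by
    rw [hm, map_add, Derivation.leibniz, Derivation.leibniz, hD, hD]
    simp only [smul_eq_mul]
    linear_combination (D x * D y) * h2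
  have hm2 : sqD h2 D m = sqD h2 D x * sqD h2 D (D y) + sqD h2 D y * sqD h2 D (D x) := by
    rw [hm, sqD_add, sqD_mul, sqD_mul]
  have e1 := swap_eigen h2 D d hDm (hD z)
  have e2 := swap_eigen h2 D d (hD y) (hD z)
  have e3 := swap_eigen h2 D d (hD x) (hD z)
  have e4 : d (sqD h2 D m) = (sqD h2 D x • d (sqD h2 D (D y)) + sqD h2 D (D y) • d (sqD h2 D x)) +
      (sqD h2 D y • d (sqD h2 D (D x)) + sqD h2 D (D x) • d (sqD h2 D y)) := by
    rw [hm2, map_add, Derivation.leibniz, Derivation.leibniz]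
  -- multiply by `(Dz)²`
  have e5 : sqD h2 D (D z) • d (sqD h2 D m) =
      sqD h2 D (D z) • (sqD h2 D (D x) • d (sqD h2 D y) + sqD h2 D (D y) • d (sqD h2 D x)) +
      (sqD h2 D x • (sqD h2 D (D z) • d (sqD h2 D (D y))) +
        sqD h2 D y • (sqD h2 D (D z) • d (sqD h2 D (D x)))) := by
    rw [e4]
    module
  rw [← e1, ← e2, ← e3, hm2] at e5
  have e6 : (sqD h2 D x * sqD h2 D (D y) + sqD h2 D y * sqD h2 D (D x)) • d (sqD h2 D (D z)) =
      sqD h2 D x • (sqD h2 D (D y) • d (sqD h2 D (D z))) +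
        sqD h2 D y • (sqD h2 D (D x) • d (sqD h2 D (D z))) := by module
  rw [e6] at e5
  exact (right_eq_add.1 e5)

/-- The values of `D` generate the unit ideal: finitely many coefficients. -/
theorem exists_coeff (hspan : Ideal.span (Set.range D) = ⊤) :
    ∃ (s : Finset A) (a : A → A), ∑ x ∈ s, a x * D x = 1 := by
  have h1 : (1 : A) ∈ Ideal.span (Set.range D) := by rw [hspan]; trivial
  rw [Ideal.span, Finsupp.mem_span_range_iff_exists_finsupp] at h1
  obtain ⟨c, hc⟩ := h1
  exact ⟨c.support, c, by simpa [Finsupp.sum] using hc⟩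

theorem key {h : A} (hD : ∀ x, D (D x) = h * D x) (hspan : Ideal.span (Set.range D) = ⊤)
    (x y : A) : sqD h2 D (D x) • d (sqD h2 D y) = sqD h2 D (D y) • d (sqD h2 D x) := by
  obtain ⟨s, a, ha⟩ := exists_coeff D hspan
  have h1 : ∑ z ∈ s, sqD h2 D (a z) * sqD h2 D (D z) = 1 := by
    rw [← sqD_one h2 D, ← ha, sqD_sum]
    exact Finset.sum_congr rfl (fun z _ => (sqD_mul h2 D _ _).symm)
  set P := sqD h2 D (D x) • d (sqD h2 D y) + sqD h2 D (D y) • d (sqD h2 D x) with hP
  have hP0 : P = 0 := by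
    have : (∑ z ∈ s, sqD h2 D (a z) * sqD h2 D (D z)) • P = 0 := by
      rw [Finset.sum_smul]
      apply Finset.sum_eq_zero
      intro z _
      rw [mul_smul, key_mul h2 D d hD x y z, smul_zero]
    rwa [h1, one_smul] at this
  have h3 := add_self_eq_zero' h2 D (sqD h2 D (D y) • d (sqD h2 D x))
  have h4 : sqD h2 D (D x) • d (sqD h2 D y) + sqD h2 D (D y) • d (sqD h2 D x) =
    sqD h2 D (D y) • d (sqD h2 D x) + sqD h2 D (D y) • d (sqD h2 D x) := by rw [← hP, hP0, h3]
  exact add_right_cancel h4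

/-- The form `η`. -/
theorem existsUnique_eta {h : A} (hD : ∀ x, D (D x) = h * D x)
    (hspan : Ideal.span (Set.range D) = ⊤) :
    ∃! η : M, ∀ x, d (sqD h2 D x) = sqD h2 D (D x) • η := by
  obtain ⟨s, a, ha⟩ := exists_coeff D hspan
  have h1 : ∑ z ∈ s, sqD h2 D (a z) * sqD h2 D (D z) = 1 := by
    rw [← sqD_one h2 D, ← ha, sqD_sum]
    exact Finset.sum_congr rfl (fun z _ => (sqD_mul h2 D _ _).symm)
  refine ⟨∑ z ∈ s, sqD h2 D (a z) • d (sqD h2 D z), ?_, ?_⟩
  · intro x
    rw [Finset.smul_sum]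
    calc d (sqD h2 D x) = (∑ z ∈ s, sqD h2 D (a z) * sqD h2 D (D z)) • d (sqD h2 D x) := by
          rw [h1, one_smul]
      _ = ∑ z ∈ s, sqD h2 D (D x) • sqD h2 D (a z) • d (sqD h2 D z) := by
          rw [Finset.sum_smul]
          apply Finset.sum_congr rfl
          intro z _
          rw [mul_smul, key h2 D d hD hspan z x, smul_comm]
  · intro η hη
    calc η = (∑ z ∈ s, sqD h2 D (a z) * sqD h2 D (D z)) • η := by rw [h1, one_smul]
      _ = ∑ z ∈ s, sqD h2 D (a z) • d (sqD h2 D z) := by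
          rw [Finset.sum_smul]
          apply Finset.sum_congr rfl
          intro z _
          rw [mul_smul, hη z]

end Pool.Agent.Helper77.FQ
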