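import Mathlib

set_option autoImplicit false

/-!
If `A = B ⊕ B t`, `t ^ 2 = T ∈ B`, `2 = 0` and `A` is formally smooth over `k`, then there is a
derivation `δ` of `B` over `k` with `δ T = 1`.
-/

namespace Pool.Agent.Helper77.FQ

open TrivSqZeroExt

/-- A derivation of `B` over `k` with value `1` at `T`. -/
theorem exists_derivation_of_quadratic {k B A : Type*} [CommRing k] [CommRing B] [CommRing A]
    [Algebra k B] [Algebra k A] [Algebra B A] [IsScalarTower k B A] [Algebra.FormallySmooth k A]
    (h2 : (2 : B) = 0)
    (t : A) (T : B) (ht : t ^ 2 = algebraMap B A T)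
    (re im : A → B) (hre : ∀ a, a = algebraMap B A (re a) + algebraMap B A (im a) * t)
    (hinj : ∀ x y : B, algebraMap B A x + algebraMap B A y * t = 0 → x = 0 ∧ y = 0) :
    ∃ δ : Derivation k B B, δ T = 1 := by
  -- uniqueness of coordinates
  have huniq : ∀ (a : A) (x y : B), a = algebraMap B A x + algebraMap B A y * t →
      re a = x ∧ im a = y := by
    intro a x y h
    have h0 : algebraMap B A (re a - x) + algebraMap B A (im a - y) * t = 0 := by
      rw [map_sub, map_sub]
      linear_combination h - (hre a)
    obtain ⟨h1, h2⟩ := hinj _ _ h0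
    exact ⟨sub_eq_zero.1 h1, sub_eq_zero.1 h2⟩
  have hremul : ∀ a b, re (a * b) = re a * re b + T * im a * im b ∧
      im (a * b) = re a * im b + im a * re b := by
    intro a b
    apply huniq
    conv_lhs => rw [hre a, hre b]
    simp only [map_add, map_mul]
    linear_combination (algebraMap B A (im a) * algebraMap B A (im b)) * ht
  have hreadd : ∀ a b, re (a + b) = re a + re b ∧ im (a + b) = im a + im b := by
    intro a b
    apply huniq
    conv_lhs => rw [hre a, hre b]
    simp only [map_add]
    ring
  have hrealg : ∀ x : B, re (algebraMap B A x) = x ∧ im (algebraMap B A x) = 0 := by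
    intro x
    apply huniq
    simp
  have hret : re t = 0 ∧ im t = 1 := huniq t 0 1 (by simp)
  -- the reduction map
  let g : QuadraticAlgebra (DualNumber B) (inl T + DualNumber.eps) (0 : DualNumber B) →ₐ[k] A :=
    { toFun := fun z => algebraMap B A z.re.fst + algebraMap B A z.im.fst * t
      map_one' := by simp [QuadraticAlgebra.re_one, QuadraticAlgebra.im_one]
      map_mul' := by
        intro x y
        simp only [QuadraticAlgebra.re_mul, QuadraticAlgebra.im_mul, TrivSqZeroExt.fst_add,
          TrivSqZeroExt.fst_mul, map_add, map_mul, TrivSqZeroExt.fst_inl, DualNumber.fst_eps,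
          add_zero, zero_mul]
        linear_combination
          (-(algebraMap B A x.im.fst * algebraMap B A y.im.fst)) * ht
      map_zero' := by simp
      map_add' := by intro x y; simp only [QuadraticAlgebra.re_add, QuadraticAlgebra.im_add,
        TrivSqZeroExt.fst_add, map_add]; ring
      commutes' := by
        intro r
        change algebraMap B A (algebraMap k B r) + algebraMap B A 0 * t = _
        rw [map_zero, zero_mul, add_zero, ← IsScalarTower.algebraMap_apply] }
  have hg : Function.Surjective g := by
    intro a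
    refine ⟨⟨inl (re a), inl (im a)⟩, ?_⟩
    change algebraMap B A (re a) + algebraMap B A (im a) * t = a
    exact (hre a).symm
  have hmem : ∀ z : QuadraticAlgebra (DualNumber B) (inl T + DualNumber.eps) (0 : DualNumber B),
      z ∈ RingHom.ker (g : QuadraticAlgebra (DualNumber B) (inl T + DualNumber.eps)
        (0 : DualNumber B) →+* A) → z.re.fst = 0 ∧ z.im.fst = 0 := by
    intro z hz
    exact hinj _ _ hz
  have hker : IsNilpotent (RingHom.ker (g : QuadraticAlgebra (DualNumber B)
      (inl T + DualNumber.eps) (0 : DualNumber B) →+* A)) := by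
    refine ⟨2, ?_⟩
    rw [pow_two, Ideal.zero_eq_bot, eq_bot_iff, Ideal.mul_le]
    intro x hx y hy
    obtain ⟨h1, h2⟩ := hmem x hx
    obtain ⟨h3, h4⟩ := hmem y hy
    have hz : ∀ u v : DualNumber B, u.fst = 0 → v.fst = 0 → u * v = 0 := by
      intro u v hu hv
      ext <;> simp [hu, hv]
    rw [Ideal.mem_bot]
    apply QuadraticAlgebra.ext
    · rw [QuadraticAlgebra.re_mul, hz _ _ h1 h3, mul_assoc, hz _ _ h2 h4]
      simp
    · rw [QuadraticAlgebra.im_mul, hz _ _ h1 h4, hz _ _ h2 h3]
      simp
  let s : A →ₐ[k] QuadraticAlgebra (DualNumber B) (inl T + DualNumber.eps) (0 : DualNumber B) :=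
    Algebra.FormallySmooth.liftOfSurjective (AlgHom.id k A) g hg hker
  have hs : ∀ a, g (s a) = a := fun a =>
    Algebra.FormallySmooth.liftOfSurjective_apply (AlgHom.id k A) g hg hker a
  have hsre : ∀ a, (s a).re.fst = re a ∧ (s a).im.fst = im a := by
    intro a
    have := huniq a _ _ (hs a).symm
    exact ⟨this.1.symm, this.2.symm⟩
  have hsB : ∀ x : B, (s (algebraMap B A x)).re.fst = x ∧ (s (algebraMap B A x)).im.fst = 0 := by
    intro x
    rw [(hsre _).1, (hsre _).2]
    exact hrealg x
  refine ⟨Derivation.mk' (R := k) (A := B) (M := B)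
    { toFun := fun x => (s (algebraMap B A x)).re.snd
      map_add' := by intro x y; simp
      map_smul' := by
        intro r x
        have : algebraMap B A (r • x) = r • algebraMap B A x := by
          rw [Algebra.smul_def, map_mul, ← IsScalarTower.algebraMap_apply, ← Algebra.smul_def]
        rw [this, map_smul]
        simp } ?_, ?_⟩
  · intro x y
    change (s (algebraMap B A (x * y))).re.snd = x • (s (algebraMap B A y)).re.snd +
      y • (s (algebraMap B A x)).re.snd
    rw [map_mul, map_mul, QuadraticAlgebra.re_mul, TrivSqZeroExt.snd_add, TrivSqZeroExt.snd_mul,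
      TrivSqZeroExt.snd_mul, (hsB x).1, (hsB y).1, (hsB y).2]
    simp [(hsB x).2, mul_comm]
  · change (s (algebraMap B A T)).re.snd = 1
    rw [← ht, map_pow, pow_two, QuadraticAlgebra.re_mul]
    have h1 : (s t).re.fst = 0 := by rw [(hsre t).1, hret.1]
    have h3 : (s t).im.fst = 1 := by rw [(hsre t).2, hret.2]
    simp only [TrivSqZeroExt.snd_add, TrivSqZeroExt.snd_mul, TrivSqZeroExt.fst_mul,
      TrivSqZeroExt.fst_add, TrivSqZeroExt.fst_inl, TrivSqZeroExt.snd_inl, h1, h3]
    simp
    linear_combination (T * (s t).im.snd) * h2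

end Pool.Agent.Helper77.FQ
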