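import Mathlib

set_option autoImplicit false

/-!
Formal smoothness descends from `A` to `B` if `A = B ⊕ B t` with `t ^ 2 ∈ B` (any characteristic).
-/

namespace Pool.Agent.Helper77.FQ

/-- Formal smoothness of `B` from that of `A = B ⊕ B t`, `t ^ 2 = T ∈ B`. -/
theorem formallySmooth_of_quadratic {k B A : Type*} [CommRing k] [CommRing B] [CommRing A]
    [Algebra k B] [Algebra k A] [Algebra B A] [IsScalarTower k B A] [Algebra.FormallySmooth k A]
    (t : A) (T : B) (ht : t ^ 2 = algebraMap B A T)
    (re im : A → B) (hre : ∀ a, a = algebraMap B A (re a) + algebraMap B A (im a) * t)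
    (hinj : ∀ x y : B, algebraMap B A x + algebraMap B A y * t = 0 → x = 0 ∧ y = 0) :
    Algebra.FormallySmooth k B := by
  -- uniqueness of coordinates
  have huniq : ∀ (a : A) (x y : B), a = algebraMap B A x + algebraMap B A y * t →
      re a = x ∧ im a = y := by
    intro a x y h
    have h0 : algebraMap B A (re a - x) + algebraMap B A (im a - y) * t = 0 := by
      rw [map_sub, map_sub]
      linear_combination h - (hre a)
    obtain ⟨h1, h2⟩ := hinj _ _ h0
    exact ⟨sub_eq_zero.1 h1, sub_eq_zero.1 h2⟩
  apply Algebra.FormallySmooth.of_comp_surjective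
  intro R _ _ I hI f
  obtain ⟨T', hT'⟩ := Ideal.Quotient.mk_surjective (f T)
  -- the quadratic extensions
  -- the reduction map
  let g : QuadraticAlgebra R T' (0 : R) →ₐ[k] QuadraticAlgebra (R ⧸ I) (f T) (0 : R ⧸ I) :=
    { toFun := fun z => ⟨Ideal.Quotient.mk I z.re, Ideal.Quotient.mk I z.im⟩
      map_one' := by ext <;> simp [QuadraticAlgebra.re_one, QuadraticAlgebra.im_one]
      map_mul' := by
        intro x y
        ext
        · simp [QuadraticAlgebra.re_mul, hT']
        · simp [QuadraticAlgebra.im_mul]
      map_zero' := by ext <;> simp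
      map_add' := by intro x y; ext <;> simp
      commutes' := by
        intro r
        ext
        · rfl
        · rfl }
  have hg : Function.Surjective g := by
    intro z
    obtain ⟨x, hx⟩ := Ideal.Quotient.mk_surjective z.re
    obtain ⟨y, hy⟩ := Ideal.Quotient.mk_surjective z.im
    exact ⟨⟨x, y⟩, by ext; exacts [hx, hy]⟩
  have hker : IsNilpotent (RingHom.ker (g : QuadraticAlgebra R T' (0 : R) →+* QuadraticAlgebra (R ⧸ I) (f T) (0 : R ⧸ I))) := by
    refine ⟨2, ?_⟩
    rw [pow_two, Ideal.zero_eq_bot, eq_bot_iff, Ideal.mul_le]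
    have hmem : ∀ z : QuadraticAlgebra R T' (0 : R), z ∈ RingHom.ker (g : QuadraticAlgebra R T' (0 : R) →+* QuadraticAlgebra (R ⧸ I) (f T) (0 : R ⧸ I)) → z.re ∈ I ∧ z.im ∈ I := by
      intro z hz
      have hz' : g z = 0 := hz
      constructor
      · exact Ideal.Quotient.eq_zero_iff_mem.1 (congrArg QuadraticAlgebra.re hz')
      · exact Ideal.Quotient.eq_zero_iff_mem.1 (congrArg QuadraticAlgebra.im hz')
    have hI2 : ∀ a ∈ I, ∀ b ∈ I, a * b = 0 := by
      intro a ha b hb
      have : a * b ∈ I ^ 2 := by rw [pow_two]; exact Ideal.mul_mem_mul ha hb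
      rw [hI] at this
      exact this
    intro x hx y hy
    obtain ⟨h1, h2⟩ := hmem x hx
    obtain ⟨h3, h4⟩ := hmem y hy
    rw [Ideal.mem_bot]
    ext
    · simp [QuadraticAlgebra.re_mul, hI2 _ h1 _ h3, mul_assoc, hI2 _ h2 _ h4]
    · simp [QuadraticAlgebra.im_mul, hI2 _ h1 _ h4, hI2 _ h2 _ h3]
  -- the map from `A`
  have hre1 : re 1 = 1 ∧ im 1 = 0 := huniq 1 1 0 (by simp)
  have hremul : ∀ a b, re (a * b) = re a * re b + T * im a * im b ∧
      im (a * b) = re a * im b + im a * re b := by
    intro a b
    apply huniq
    conv_lhs => rw [hre a, hre b]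
    simp only [map_add, map_mul]
    linear_combination (algebraMap B A (im a) * algebraMap B A (im b)) * ht
  have hreadd : ∀ a b, re (a + b) = re a + re b ∧ im (a + b) = im a + im b := by
    intro a b
    apply huniq
    conv_lhs => rw [hre a, hre b]
    simp only [map_add]
    ring
  have hrealg : ∀ x : B, re (algebraMap B A x) = x ∧ im (algebraMap B A x) = 0 := by
    intro x
    apply huniq
    simp
  let F : A →ₐ[k] QuadraticAlgebra (R ⧸ I) (f T) (0 : R ⧸ I) :=
    { toFun := fun a => ⟨f (re a), f (im a)⟩
      map_one' := by ext <;> simp [hre1, QuadraticAlgebra.re_one, QuadraticAlgebra.im_one]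
      map_mul' := by
        intro x y
        ext
        · simp [QuadraticAlgebra.re_mul, (hremul x y).1]
        · simp [QuadraticAlgebra.im_mul, (hremul x y).2]
      map_zero' := by
        have h := hrealg 0
        rw [map_zero] at h
        ext <;> simp [h]
      map_add' := by
        intro x y
        ext
        · simp [(hreadd x y).1]
        · simp [(hreadd x y).2]
      commutes' := by
        intro r
        have h := hrealg (algebraMap k B r)
        rw [← IsScalarTower.algebraMap_apply] at h
        ext
        · simp only [h.1]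
          exact f.commutes r
        · simp only [h.2, map_zero]
          rfl }
  let G : A →ₐ[k] QuadraticAlgebra R T' (0 : R) := Algebra.FormallySmooth.liftOfSurjective F g hg hker
  have hG : ∀ a, g (G a) = F a := fun a =>
    Algebra.FormallySmooth.liftOfSurjective_apply F g hg hker a
  have hGre : ∀ a, Ideal.Quotient.mk I (G a).re = f (re a) := fun a =>
    congrArg QuadraticAlgebra.re (hG a)
  have hGim : ∀ a, Ideal.Quotient.mk I (G a).im = f (im a) := fun a =>
    congrArg QuadraticAlgebra.im (hG a)
  have hI2 : ∀ a ∈ I, ∀ b ∈ I, a * b = 0 := by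
    intro a ha b hb
    have : a * b ∈ I ^ 2 := by rw [pow_two]; exact Ideal.mul_mem_mul ha hb
    rw [hI] at this
    exact this
  have him : ∀ x : B, (G (algebraMap B A x)).im ∈ I := by
    intro x
    rw [← Ideal.Quotient.eq_zero_iff_mem, hGim, (hrealg x).2, map_zero]
  let H : B →ₐ[k] R :=
    { toFun := fun x => (G (algebraMap B A x)).re
      map_one' := by simp [QuadraticAlgebra.re_one]
      map_mul' := by
        intro x y
        simp only [map_mul, QuadraticAlgebra.re_mul]
        rw [mul_assoc, hI2 _ (him x) _ (him y)]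
        simp
      map_zero' := by simp
      map_add' := by intro x y; simp
      commutes' := by
        intro r
        rw [← IsScalarTower.algebraMap_apply, G.commutes]
        rfl }
  refine ⟨H, ?_⟩
  ext x
  change Ideal.Quotient.mk I (G (algebraMap B A x)).re = f x
  rw [hGre, (hrealg x).1]

end Pool.Agent.Helper77.FQ
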