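import Pool.Agent.Helper77.FQ.QuadSmooth
import Pool.Agent.Helper77.FQ.QuadDer
import Pool.Agent.Helper77.FQ.Eta

set_option autoImplicit false

/-!
Derivations `D` with `D ^ 2 = 0` and a slice `t` (`D t = 1`) in characteristic two: `A = B ⊕ B t`,
`B = ker D`, `B` is formally smooth if `A` is, and `B` has a derivation with value `1` at `t ^ 2`.
-/

namespace Pool.Agent.Helper77.FQ

variable {k A : Type*} [CommRing k] [CommRing A] [Algebra k A]
variable (D : Derivation k A A)

/-- The first coordinate. -/
def reD (hD : ∀ x, D (D x) = 0) (t : A) (ht : D t = 1) (x : A) : kerD D :=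
  ⟨x - D x * t, by
    rw [mem_kerD, map_sub, Derivation.leibniz, hD, ht]
    simp⟩

/-- The second coordinate. -/
def imD (hD : ∀ x, D (D x) = 0) (x : A) : kerD D := ⟨D x, hD x⟩

theorem reD_add_imD (hD : ∀ x, D (D x) = 0) (t : A) (ht : D t = 1) (x : A) :
    x = algebraMap (kerD D) A (reD D hD t ht x) + algebraMap (kerD D) A (imD D hD x) * t := by
  change x = (x - D x * t) + D x * t
  ring

theorem slice_inj (t : A) (ht : D t = 1) (x y : kerD D)
    (h : algebraMap (kerD D) A x + algebraMap (kerD D) A y * t = 0) : x = 0 ∧ y = 0 := by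
  have h' : (x : A) + (y : A) * t = 0 := h
  have hx : D (x : A) = 0 := x.2
  have hy : D (y : A) = 0 := y.2
  have h1 : (y : A) = 0 := by
    have := congrArg D h'
    rw [map_add, Derivation.leibniz, hx, hy, ht] at this
    simpa using this
  refine ⟨?_, Subtype.ext h1⟩
  apply Subtype.ext
  rw [h1] at h'
  simpa using h'

/-- The kernel of a derivation with a slice is formally smooth. -/
theorem formallySmooth_kerD [Algebra.FormallySmooth k A] (h2 : (2 : A) = 0)
    (hD : ∀ x, D (D x) = 0) (t : A) (ht : D t = 1) : Algebra.FormallySmooth k (kerD D) :=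
  formallySmooth_of_quadratic t (sqD h2 D t) rfl (reD D hD t ht) (imD D hD)
    (reD_add_imD D hD t ht) (slice_inj D t ht)

/-- The kernel of a derivation with a slice `t` has a derivation with value `1` at `t ^ 2`. -/
theorem exists_derivation_kerD [Algebra.FormallySmooth k A] (h2 : (2 : A) = 0)
    (hD : ∀ x, D (D x) = 0) (t : A) (ht : D t = 1) :
    ∃ δ : Derivation k (kerD D) (kerD D), δ (sqD h2 D t) = 1 :=
  exists_derivation_of_quadratic (two_kerD h2 D) t (sqD h2 D t) rfl (reD D hD t ht) (imD D hD)
    (reD_add_imD D hD t ht) (slice_inj D t ht)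

/-- The kernel of a derivation with a slice is of finite type if `A` is (`2 = 0`, squares). -/
theorem finiteType_kerD [Algebra.FiniteType k A] [IsNoetherianRing k] (h2 : (2 : A) = 0) :
    Algebra.FiniteType k (kerD D) := by
  -- `A` is integral, of finite type over the subalgebra generated by the squares
  obtain ⟨s, hs⟩ := (inferInstance : Algebra.FiniteType k A).out
  classical
  let C : Subalgebra k A := Algebra.adjoin k ((fun x => x ^ 2) '' (s : Set A))
  have hCfg : Algebra.FiniteType k C := by
    rw [← Subalgebra.fg_iff_finiteType]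
    refine ⟨s.image (fun x => x ^ 2), ?_⟩
    simp [C]
  have hCB : C ≤ kerD D := by
    apply Algebra.adjoin_le
    rintro _ ⟨x, _, rfl⟩
    exact (sqD h2 D x).2
  have hint : ∀ x ∈ s, IsIntegral C x := by
    intro x hx
    refine ⟨Polynomial.X ^ 2 - Polynomial.C ⟨x ^ 2, Algebra.subset_adjoin ⟨x, hx, rfl⟩⟩,
      Polynomial.monic_X_pow_sub_C _ two_ne_zero, ?_⟩
    simp only [Polynomial.eval₂_sub, Polynomial.eval₂_X_pow, Polynomial.eval₂_C]
    exact sub_self _
  have hfin : Module.Finite C A := by
    have h1 : (Algebra.adjoin C (s : Set A)) = ⊤ := by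
      rw [eq_top_iff]
      intro x _
      have hx : x ∈ Algebra.adjoin k (s : Set A) := by rw [hs]; trivial
      have hle : Algebra.adjoin k (s : Set A) ≤
          (Algebra.adjoin C (s : Set A)).restrictScalars k :=
        Algebra.adjoin_le (fun y hy => Algebra.subset_adjoin hy)
      exact hle hx
    have h2' : (⊤ : Subalgebra C A).toSubmodule.FG := by
      rw [← h1]
      exact fg_adjoin_of_finite s.finite_toSet (fun x hx => hint x hx)
    exact ⟨h2'⟩
  haveI : IsNoetherianRing C := Algebra.FiniteType.isNoetherianRing k C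
  haveI : IsNoetherian C A := isNoetherian_of_isNoetherianRing_of_finite C A
  -- `kerD D` is a `C`-submodule of `A`
  letI : Algebra C (kerD D) := (Subalgebra.inclusion hCB).toAlgebra
  haveI : IsScalarTower k C (kerD D) := IsScalarTower.of_algebraMap_eq (fun _ => rfl)
  have hBfin : Module.Finite C (kerD D) := by
    let φ : kerD D →ₗ[C] A :=
      { toFun := fun x => (x : A)
        map_add' := fun _ _ => rfl
        map_smul' := fun _ _ => rfl }
    exact Module.Finite.of_injective φ Subtype.val_injective
  haveI : Algebra.FiniteType C (kerD D) := inferInstance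
  exact Algebra.FiniteType.trans (S := C) hCfg inferInstance

/-- The kernel of a derivation with a slice is smooth over a Noetherian ring. -/
theorem smooth_kerD [IsNoetherianRing k] [Algebra.Smooth k A] (h2 : (2 : A) = 0)
    (hD : ∀ x, D (D x) = 0) (t : A) (ht : D t = 1) : Algebra.Smooth k (kerD D) := by
  haveI := formallySmooth_kerD D h2 hD t ht
  haveI : Algebra.FiniteType k (kerD D) := finiteType_kerD D h2
  exact ⟨inferInstance, Algebra.FinitePresentation.of_finiteType.1 inferInstance⟩

end Pool.Agent.Helper77.FQ
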